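import Pool.Agent.H988Z.Mod.Main

set_option autoImplicit false

open AlgebraicGeometry CategoryTheory
open Pool.Agent.H988Z.Mod

namespace Pool.Agent.Results.MP_70d7ca_ag.ANotModuli

/-- There are a quasi-projective complex scheme `Z` and a linear algebraic group `G` acting on it
such that, for every class `𝒞` of polarized manifolds, the moduli stack `M_𝒞` is not equivalent
to `[Z/G]` over complex schemes. This holds over all complex schemes (`T` everything) and also
after restricting both sides to any class `T` of test schemes containing the affine schemes of
finite type. (Witness: four concurrent lines with transcendental cross ratio, `G` trivial.) -/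
theorem result : ∃ (Z G : Over SpecC) (_ : GrpObj G) (ρ : Action G Z),
    IsQuasiProjective Z.hom ∧ IsLinearAlgebraic G ∧
    ∀ (T : Over SpecC → Prop),
      (∀ S : Over SpecC, IsAffine S.left → LocallyOfFiniteType S.hom → T S) →
      ∀ (𝒞 : PolClass) (Φ : Family 𝒞 T ⥤ QuotObj ρ T), Φ.IsEquivalence →
        IsEmpty (Φ ⋙ quotBase ρ T ≅ familyBase 𝒞 T) :=
  main

end Pool.Agent.Results.MP_70d7ca_ag.ANotModuli
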